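import Mathlib
import Pool.Agent.TH525.PU.Mean

/-! The mean number of closed solutions of `x' = f(t,x) + s`, general regions. -/

open Set MeasureTheory Topology Filter
open scoped ENNReal NNReal

namespace Pool.Agent.TH525.AG

open Pool.Agent.TH525.PU

/-- `φ` is a closed solution of `x' = f(t, x) + s` on `[0, T]` with `φ t ∈ V t`. -/
structure IsClosedIn (T : ℝ) (V : ℝ → Set ℝ) (f : ℝ → ℝ → ℝ) (s : ℝ) (φ : ℝ → ℝ) : Prop where
  deriv : ∀ t ∈ Icc 0 T, HasDerivWithinAt φ (f t (φ t) + s) (Icc 0 T) t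
  closed : φ 0 = φ T
  mem : ∀ t ∈ Icc 0 T, φ t ∈ V t

/-- the set of the closed solutions -/
def closedIn (T : ℝ) (V : ℝ → Set ℝ) (f : ℝ → ℝ → ℝ) (s : ℝ) : Set (Icc 0 T → ℝ) :=
  {g | ∃ φ, IsClosedIn T V f s φ ∧ g = (Icc 0 T).domRestrict φ}

/-- `f` is Lipschitz in `x` between any two continuous functions -/
def LocLip (T : ℝ) (V : ℝ → Set ℝ) (f : ℝ → ℝ → ℝ) : Prop :=
  ∀ φ ψ : ℝ → ℝ, ContinuousOn φ (Icc 0 T) → ContinuousOn ψ (Icc 0 T) →
    (∀ t ∈ Icc 0 T, φ t ∈ V t ∧ ψ t ∈ V t) →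
    ∃ K : ℝ≥0, ∀ t ∈ Icc 0 T, LipschitzOnWith K (f t) (uIcc (φ t) (ψ t))

variable {T : ℝ} {V : ℝ → Set ℝ} {f : ℝ → ℝ → ℝ}

lemma IsClosedIn.cont {s : ℝ} {φ : ℝ → ℝ} (h : IsClosedIn T V f s φ) :
    ContinuousOn φ (Icc 0 T) := fun t ht => (h.deriv t ht).continuousWithinAt

theorem ordered (hL : LocLip T V f) {s s' : ℝ}
    {φ ψ : ℝ → ℝ} (hφ : IsClosedIn T V f s φ) (hψ : IsClosedIn T V f s' ψ)
    (h0 : φ 0 < ψ 0) : ∀ t ∈ Icc 0 T, φ t < ψ t := by
  obtain ⟨K, hK⟩ := hL φ ψ hφ.cont hψ.cont (fun t ht => ⟨hφ.mem t ht, hψ.mem t ht⟩)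
  intro t ht
  by_contra hcon
  push Not at hcon
  set h : ℝ → ℝ := fun x => ψ x - φ x with hh
  have hc : ContinuousOn h (Icc 0 T) := hψ.cont.sub hφ.cont
  have hT : 0 < h T := by
    simp only [hh]; rw [← hψ.closed, ← hφ.closed]; linarith
  obtain ⟨r, hr, hr0, hrp⟩ := first_zero (h := h) ht.1 (hc.mono (Icc_subset_Icc_right ht.2))
    (by simp only [hh]; linarith) (by simp only [hh]; linarith)
  obtain ⟨q, hq, hq0, hqp⟩ := last_zero (h := h) ht.2 (hc.mono (Icc_subset_Icc_left ht.1))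
    (by simp only [hh]; linarith) hT
  have hrm : r ∈ Icc 0 T := ⟨hr.1.le, hr.2.trans ht.2⟩
  have hqm : q ∈ Icc 0 T := ⟨ht.1.trans hq.1, hq.2.le⟩
  have er : φ r = ψ r := by simp only [hh] at hr0; linarith
  have eq : φ q = ψ q := by simp only [hh] at hq0; linarith
  have d1 : HasDerivWithinAt h (s' - s) (Icc 0 r) r := by
    have := ((hψ.deriv r hrm).sub (hφ.deriv r hrm)).mono (Icc_subset_Icc_right hrm.2)
    rw [er, show f r (ψ r) + s' - (f r (ψ r) + s) = s' - s by ring] at this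
    exact this
  have d2 : HasDerivWithinAt h (s' - s) (Icc q T) q := by
    have := ((hψ.deriv q hqm).sub (hφ.deriv q hqm)).mono (Icc_subset_Icc_left hqm.1)
    rw [eq, show f q (ψ q) + s' - (f q (ψ q) + s) = s' - s by ring] at this
    exact this
  have i1 := deriv_nonpos_left hr.1 d1 (fun x hx => by rw [hr0]; exact (hrp x hx).le)
  have i2 := deriv_nonneg_right hq.2 d2 (fun x hx => by rw [hq0]; exact (hqp x hx).le)
  have es : s' = s := by linarith
  subst es
  have hu : EqOn φ ψ (Icc 0 r) := by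
    refine ODE_solution_unique_of_mem_Icc_left (v := fun t x => f t x + s')
      (s := fun t => uIcc (φ t) (ψ t)) (K := K) ?_ ?_ ?_ ?_ ?_ ?_ ?_ er
    · intro x hx
      have h1 := hK x ⟨hx.1.le, hx.2.trans hrm.2⟩
      intro a ha b hb
      have := h1 ha hb
      simpa [edist_add_right] using this
    · exact hφ.cont.mono (Icc_subset_Icc_right hrm.2)
    · intro x hx
      have hx' : x ∈ Icc 0 T := ⟨hx.1.le, hx.2.trans hrm.2⟩
      refine (hφ.deriv x hx').mono_of_mem_nhdsWithin ?_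
      have : Icc 0 x ⊆ Icc 0 T := Icc_subset_Icc_right hx'.2
      exact mem_of_superset (Icc_mem_nhdsLE hx.1) this
    · intro x hx
      exact left_mem_uIcc
    · exact hψ.cont.mono (Icc_subset_Icc_right hrm.2)
    · intro x hx
      have hx' : x ∈ Icc 0 T := ⟨hx.1.le, hx.2.trans hrm.2⟩
      refine (hψ.deriv x hx').mono_of_mem_nhdsWithin ?_
      have : Icc 0 x ⊆ Icc 0 T := Icc_subset_Icc_right hx'.2
      exact mem_of_superset (Icc_mem_nhdsLE hx.1) this
    · intro x hx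
      exact right_mem_uIcc
  have := hu (left_mem_Icc.2 hrm.1)
  linarith

lemma not_lt_of_eq (hT : 0 < T) {s s' : ℝ}
    {φ ψ : ℝ → ℝ} (hφ : IsClosedIn T V f s φ) (hψ : IsClosedIn T V f s' ψ)
    (h0 : φ 0 = ψ 0) : ¬ s < s' := by
  intro hs
  set h : ℝ → ℝ := fun x => ψ x - φ x with hh
  have hc : ContinuousOn h (Icc 0 T) := hψ.cont.sub hφ.cont
  have hTT : h T = 0 := by
    simp only [hh]; rw [← hψ.closed, ← hφ.closed]; linarith
  have h00 : h 0 = 0 := by simp only [hh]; linarith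
  have hd : ∀ r ∈ Icc 0 T, h r = 0 → HasDerivWithinAt h (s' - s) (Icc 0 T) r := by
    intro r hr hr0
    have er : φ r = ψ r := by simp only [hh] at hr0; linarith
    have := ((hψ.deriv r hr).sub (hφ.deriv r hr))
    rw [er, show f r (ψ r) + s' - (f r (ψ r) + s) = s' - s by ring] at this
    exact this
  have hpos : ∃ x ∈ Icc 0 T, 0 < h x := by
    by_contra hcon
    push Not at hcon
    have d0 := hd 0 (left_mem_Icc.2 hT.le) h00
    have := deriv_nonneg_right (h := fun x => - h x) hT d0.neg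
      (fun x hx => by
        have := hcon x ⟨hx.1.le, hx.2⟩
        rw [h00]; linarith)
    linarith
  obtain ⟨x, hx, hxp⟩ := hpos
  obtain ⟨r, hr, hr0, hrp⟩ := first_zero (h := h) hx.2 (hc.mono (Icc_subset_Icc_left hx.1))
    hxp hTT.le
  have hrm : r ∈ Icc 0 T := ⟨hx.1.trans hr.1.le, hr.2⟩
  have d1 := (hd r hrm hr0).mono (show Icc x r ⊆ Icc 0 T from Icc_subset_Icc hx.1 hr.2)
  have i1 := deriv_nonpos_left hr.1 d1 (fun y hy => by rw [hr0]; exact (hrp y hy).le)
  linarith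

theorem eq_param (hT : 0 < T) {s s' : ℝ}
    {φ ψ : ℝ → ℝ} (hφ : IsClosedIn T V f s φ) (hψ : IsClosedIn T V f s' ψ)
    (h0 : φ 0 = ψ 0) : s = s' := by
  rcases lt_trichotomy s s' with h | h | h
  · exact absurd h (not_lt_of_eq hT hφ hψ h0)
  · exact h
  · exact absurd h (not_lt_of_eq hT hψ hφ h0.symm)

theorem eq_sol (hL : LocLip T V f) (hT : 0 < T) {s s' : ℝ}
    {φ ψ : ℝ → ℝ} (hφ : IsClosedIn T V f s φ) (hψ : IsClosedIn T V f s' ψ)
    (h0 : φ 0 = ψ 0) : EqOn φ ψ (Icc 0 T) := by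
  obtain ⟨K, hK⟩ := hL φ ψ hφ.cont hψ.cont (fun t ht => ⟨hφ.mem t ht, hψ.mem t ht⟩)
  have es := eq_param hT hφ hψ h0
  subst es
  refine ODE_solution_unique_of_mem_Icc_right (v := fun t x => f t x + s)
      (s := fun t => uIcc (φ t) (ψ t)) (K := K) ?_ hφ.cont ?_ ?_ hψ.cont ?_ ?_ h0
  · intro x hx
    have h1 := hK x ⟨hx.1, hx.2.le⟩
    intro a ha b hb
    have := h1 ha hb
    simpa [edist_add_right] using this
  · intro x hx
    have hx' : x ∈ Icc 0 T := ⟨hx.1, hx.2.le⟩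
    refine (hφ.deriv x hx').mono_of_mem_nhdsWithin ?_
    have : Icc x T ⊆ Icc 0 T := Icc_subset_Icc_left hx'.1
    exact mem_of_superset (Icc_mem_nhdsGE hx.2) this
  · intro x hx
    exact left_mem_uIcc
  · intro x hx
    have hx' : x ∈ Icc 0 T := ⟨hx.1, hx.2.le⟩
    refine (hψ.deriv x hx').mono_of_mem_nhdsWithin ?_
    have : Icc x T ⊆ Icc 0 T := Icc_subset_Icc_left hx'.1
    exact mem_of_superset (Icc_mem_nhdsGE hx.2) this
  · intro x hx
    exact right_mem_uIcc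

/-- the region -/
def Reg (T : ℝ) (V : ℝ → Set ℝ) : Set (ℝ × ℝ) := {p | p.1 ∈ Icc 0 T ∧ p.2 ∈ V p.1}

lemma IsClosedIn.contf (hf : ContinuousOn (Function.uncurry f) (Reg T V)) {s : ℝ} {φ : ℝ → ℝ}
    (hφ : IsClosedIn T V f s φ) : ContinuousOn (fun t => f t (φ t)) (Icc 0 T) := by
  have h1 : ContinuousOn (fun t => ((t, φ t) : ℝ × ℝ)) (Icc 0 T) :=
    continuousOn_id.prodMk hφ.cont
  exact hf.comp h1 (fun t ht => ⟨ht, hφ.mem t ht⟩)

theorem mean_formula (hT : 0 < T) (hf : ContinuousOn (Function.uncurry f) (Reg T V)) {s : ℝ}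
    {φ : ℝ → ℝ} (hφ : IsClosedIn T V f s φ) :
    T * s = - ∫ t in (0:ℝ)..T, f t (φ t) := by
  have hi : IntervalIntegrable (fun t => f t (φ t)) volume 0 T :=
    ((hφ.contf hf).mono (by rw [uIcc_of_le hT.le])).intervalIntegrable
  have h1 := intervalIntegral.integral_eq_sub_of_hasDerivAt_of_le hT.le hφ.cont
    (f' := fun t => f t (φ t) + s)
    (fun x hx => (hφ.deriv x (Ioo_subset_Icc_self hx)).hasDerivAt (Icc_mem_nhds hx.1 hx.2))
    (hi.add intervalIntegrable_const)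
  rw [intervalIntegral.integral_add hi intervalIntegrable_const, intervalIntegral.integral_const,
    ← hφ.closed] at h1
  simp only [sub_zero, smul_eq_mul, sub_self] at h1
  linarith

lemma edist_param (hT : 0 < T) (hf : ContinuousOn (Function.uncurry f) (Reg T V)) {s s' : ℝ}
    {φ ψ : ℝ → ℝ} (hφ : IsClosedIn T V f s φ) (hψ : IsClosedIn T V f s' ψ) :
    edist s s' ≤ ENNReal.ofReal (1 / T) *
      ∫⁻ t in Icc 0 T, edist (f t (φ t)) (f t (ψ t)) := by
  have h1 := mean_formula hT hf hφ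
  have h2 := mean_formula hT hf hψ
  have i1 : IntervalIntegrable (fun t => f t (φ t)) volume 0 T :=
    ((hφ.contf hf).mono (by rw [uIcc_of_le hT.le])).intervalIntegrable
  have i2 : IntervalIntegrable (fun t => f t (ψ t)) volume 0 T :=
    ((hψ.contf hf).mono (by rw [uIcc_of_le hT.le])).intervalIntegrable
  have h3 : T * (s - s') = - ∫ t in (0:ℝ)..T, (f t (φ t) - f t (ψ t)) := by
    rw [intervalIntegral.integral_sub i1 i2]
    linarith
  have h4 : ‖T * (s - s')‖ₑ ≤ ∫⁻ t in Icc 0 T, edist (f t (φ t)) (f t (ψ t)) := by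
    rw [h3, enorm_neg, intervalIntegral.integral_of_le hT.le]
    refine (enorm_integral_le_lintegral_enorm _).trans ?_
    refine (lintegral_mono_set Ioc_subset_Icc_self).trans (le_of_eq ?_)
    simp only [edist_eq_enorm_sub]
  rw [enorm_mul, ← edist_eq_enorm_sub] at h4
  have h5 : ‖T‖ₑ = ENNReal.ofReal T := by
    rw [Real.enorm_eq_ofReal hT.le]
  rw [h5] at h4
  calc edist s s' = ENNReal.ofReal (1 / T) * (ENNReal.ofReal T * edist s s') := by
        rw [← mul_assoc, ← ENNReal.ofReal_mul (by positivity), one_div, inv_mul_cancel₀ hT.ne']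
        simp
    _ ≤ _ := by gcongr

/-- **General mean theorem.** -/
theorem mainG (hT : 0 < T) (hf : ContinuousOn (Function.uncurry f) (Reg T V))
    (hL : LocLip T V f) :
    ∃ g : ℝ → ℝ≥0∞, Measurable g ∧ (∀ s, ((closedIn T V f s).encard : ℝ≥0∞) ≤ g s) ∧
      ∫⁻ s, g s ≤ ENNReal.ofReal (1 / T) * ∫⁻ t in Icc 0 T, eVariationOn (f t) (V t) := by
  classical
  set E : Set ℝ := {x | ∃ s φ, IsClosedIn T V f s φ ∧ φ 0 = x} with hE
  have hex : ∀ x, ∃ p : ℝ × (ℝ → ℝ), x ∈ E → IsClosedIn T V f p.1 p.2 ∧ p.2 0 = x := by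
    intro x
    by_cases hx : x ∈ E
    · obtain ⟨s, φ, h1, h2⟩ := hx
      exact ⟨(s, φ), fun _ => ⟨h1, h2⟩⟩
    · exact ⟨(0, fun _ => 0), fun h => absurd h hx⟩
  choose P hP using hex
  obtain ⟨g, hgm, hg, hgi⟩ := majorant (fun x => (P x).1) E
  refine ⟨g, hgm, fun s => ?_, hgi.trans ?_⟩
  · refine le_trans ?_ (hg s)
    refine ENat.toENNReal_le.2 ?_
    have h0 : (0:ℝ) ∈ Icc 0 T := left_mem_Icc.2 hT.le
    refine Set.encard_le_encard_of_injOn (f := fun h : Icc 0 T → ℝ => h ⟨0, h0⟩) ?_ ?_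
    · rintro _ ⟨φ, hφ, rfl⟩
      have hx : φ 0 ∈ E := ⟨s, φ, hφ, rfl⟩
      refine ⟨hx, ?_⟩
      have := hP (φ 0) hx
      exact eq_param hT this.1 hφ this.2
    · rintro _ ⟨φ, hφ, rfl⟩ _ ⟨ψ, hψ, rfl⟩ he
      ext x
      exact eq_sol hL hT hφ hψ he x.2
  · refine iSup_le ?_
    rintro ⟨n, u, hu, us⟩
    simp only
    have hs : ∀ i, IsClosedIn T V f (P (u i)).1 (P (u i)).2 ∧ (P (u i)).2 0 = u i :=
      fun i => hP (u i) (us i)
    have haem : ∀ i, AEMeasurable
        (fun t => edist (f t ((P (u (i+1))).2 t)) (f t ((P (u i)).2 t)))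
        (volume.restrict (Icc 0 T)) := by
      intro i
      have h1 := (hs (i+1)).1.contf hf
      have h2 := (hs i).1.contf hf
      exact (continuous_edist.comp_continuousOn (h1.prodMk h2)).aemeasurable measurableSet_Icc
    calc ∑ i ∈ Finset.range n, edist (P (u (i+1))).1 (P (u i)).1
        ≤ ∑ i ∈ Finset.range n, ENNReal.ofReal (1 / T) *
          ∫⁻ t in Icc 0 T, edist (f t ((P (u (i+1))).2 t)) (f t ((P (u i)).2 t)) :=
          Finset.sum_le_sum fun i _ => edist_param hT hf (hs (i+1)).1 (hs i).1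
      _ = ENNReal.ofReal (1 / T) * ∫⁻ t in Icc 0 T, ∑ i ∈ Finset.range n,
          edist (f t ((P (u (i+1))).2 t)) (f t ((P (u i)).2 t)) := by
          rw [← Finset.mul_sum, lintegral_finsetSum' _ (fun i _ => haem i)]
      _ ≤ _ := by
          refine mul_le_mul_right ?_ _
          refine setLIntegral_mono_ae' measurableSet_Icc (ae_of_all _ fun t ht => ?_)
          refine eVariationOn.sum_le (f := f t) (s := V t) (u := fun i => (P (u i)).2 t) ?_ ?_
          · refine monotone_nat_of_le_succ fun i => ?_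
            rcases (hu (Nat.le_succ i)).eq_or_lt with h | h
            · rw [h]
            · exact (ordered hL (hs i).1 (hs (i+1)).1 (by rw [(hs i).2, (hs (i+1)).2]; exact h)
                t ht).le
          · intro i
            exact (hs i).1.mem t ht

end Pool.Agent.TH525.AG
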