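import Mathlib
import Pool.Agent.TH525.PU.RigidMain

/-! The variation of a rational function on two disjoint intervals: counting roots. -/

open Set MeasureTheory Topology Filter
open scoped ENNReal NNReal

namespace Pool.Agent.TH525.AG

lemma edist_eq_volume_uIoo (a b : ℝ) : edist a b = volume (uIoo a b) := by
  rw [uIoo, Real.volume_Ioo, edist_dist, Real.dist_eq]
  congr 1
  exact (max_sub_min_eq_abs' a b).symm

lemma ivt_uIoo {F : ℝ → ℝ} {a b : ℝ} (hab : a ≤ b) (hc : ContinuousOn F (Icc a b)) {y : ℝ}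
    (hy : y ∈ uIoo (F a) (F b)) : ∃ x ∈ Ioo a b, F x = y := by
  rcases le_total (F a) (F b) with h | h
  · rw [uIoo_of_le h] at hy
    exact intermediate_value_Ioo hab hc hy
  · rw [uIoo_of_ge h] at hy
    exact intermediate_value_Ioo' hab hc hy

open Classical in
/-- the variation is at most the integral of the number of preimages -/
lemma var_le_count {F : ℝ → ℝ} {I : Set ℝ} (hI : I.OrdConnected) (hc : ContinuousOn F I)
    {m M : ℝ} (hb : ∀ x ∈ I, m ≤ F x ∧ F x ≤ M) (R : ℝ → Finset ℝ)
    (hR : ∀ y, ∀ x ∈ I, F x = y → x ∈ R y) :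
    eVariationOn F I ≤ ∫⁻ y in Icc m M, (((R y).filter (· ∈ I)).card : ℝ≥0∞) := by
  refine iSup_le ?_
  rintro ⟨n, u, hu, us⟩
  simp only
  have h1 : ∀ i, edist (F (u (i+1))) (F (u i)) =
      ∫⁻ y in Icc m M, (uIoo (F (u i)) (F (u (i+1)))).indicator 1 y := by
    intro i
    rw [edist_comm, edist_eq_volume_uIoo, lintegral_indicator_one (by rw [uIoo]; exact measurableSet_Ioo),
      Measure.restrict_apply (by rw [uIoo]; exact measurableSet_Ioo), inter_eq_left.2]
    intro y hy
    have b1 := hb _ (us i)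
    have b2 := hb _ (us (i+1))
    exact ⟨(le_min b1.1 b2.1).trans hy.1.le, hy.2.le.trans (max_le b1.2 b2.2)⟩
  simp only [h1]
  rw [← lintegral_finsetSum' _ (fun i _ => (measurable_one.indicator
    (by rw [uIoo]; exact measurableSet_Ioo)).aemeasurable)]
  refine lintegral_mono fun y => ?_
  simp only
  set S := (Finset.range n).filter (fun i => y ∈ uIoo (F (u i)) (F (u (i+1)))) with hS
  have h2 : ∑ i ∈ Finset.range n, (uIoo (F (u i)) (F (u (i+1)))).indicator (1 : ℝ → ℝ≥0∞) y =
      (S.card : ℝ≥0∞) := by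
    rw [hS, Finset.card_filter]
    push_cast
    refine Finset.sum_congr rfl fun i _ => ?_
    by_cases h : y ∈ uIoo (F (u i)) (F (u (i+1)))
    · rw [indicator_of_mem h, if_pos h]; rfl
    · rw [indicator_of_notMem h, if_neg h]
  rw [h2]
  norm_cast
  have hx : ∀ i, ∃ x, y ∈ uIoo (F (u i)) (F (u (i+1))) → x ∈ Ioo (u i) (u (i+1)) ∧ F x = y := by
    intro i
    by_cases h : y ∈ uIoo (F (u i)) (F (u (i+1)))
    · obtain ⟨x, hx, hxy⟩ := ivt_uIoo (hu (Nat.le_succ i))
        (hc.mono (hI.out (us i) (us (i+1)))) h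
      exact ⟨x, fun _ => ⟨hx, hxy⟩⟩
    · exact ⟨0, fun h' => absurd h' h⟩
  choose x hx using hx
  refine Finset.card_le_card_of_injOn x ?_ ?_
  · intro i hi
    have hi' := (Finset.mem_filter.1 (Finset.mem_coe.1 hi)).2
    obtain ⟨h3, h4⟩ := hx i hi'
    have hm : x i ∈ I := hI.out (us i) (us (i+1)) ⟨h3.1.le, h3.2.le⟩
    exact Finset.mem_coe.2 (Finset.mem_filter.2 ⟨hR y _ hm h4, hm⟩)
  · intro i hi j hj hij
    have hi' := (hx i (Finset.mem_filter.1 (Finset.mem_coe.1 hi)).2).1
    have hj' := (hx j (Finset.mem_filter.1 (Finset.mem_coe.1 hj)).2).1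
    rcases lt_trichotomy i j with h | h | h
    · exfalso
      have := hu (Nat.succ_le_of_lt h)
      rw [hij] at hi'
      have h5 := hi'.2
      have h6 := hj'.1
      simp only [Nat.succ_eq_add_one] at this
      linarith
    · exact h
    · exfalso
      have := hu (Nat.succ_le_of_lt h)
      rw [← hij] at hj'
      have h5 := hj'.2
      have h6 := hi'.1
      simp only [Nat.succ_eq_add_one] at this
      linarith

lemma var_of_const {F : ℝ → ℝ} {V : Set ℝ} {c : ℝ} (h : ∀ x ∈ V, F x = c) :
    eVariationOn F V = 0 := by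
  refine le_antisymm (iSup_le ?_) bot_le
  rintro ⟨n, u, hu, us⟩
  simp only
  refine (Finset.sum_eq_zero fun i _ => ?_).le
  rw [h _ (us (i+1)), h _ (us i), edist_self]

open Classical in
/-- the variations of `p / q` on two disjoint intervals -/
theorem var_rat_roots {p q : Polynomial ℝ} {n : ℕ} (hp : p.natDegree ≤ n) (hq : q.natDegree ≤ n)
    {I J : Set ℝ} (hI : I.OrdConnected) (hJ : J.OrdConnected) (hIJ : Disjoint I J)
    (hqI : ∀ x ∈ I, q.eval x ≠ 0) (hqJ : ∀ x ∈ J, q.eval x ≠ 0) {m M : ℝ}
    (hbI : ∀ x ∈ I, m ≤ p.eval x / q.eval x ∧ p.eval x / q.eval x ≤ M)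
    (hbJ : ∀ x ∈ J, m ≤ p.eval x / q.eval x ∧ p.eval x / q.eval x ≤ M) :
    eVariationOn (fun r => p.eval r / q.eval r) I + eVariationOn (fun r => p.eval r / q.eval r) J ≤
      n * ENNReal.ofReal (M - m) := by
  have hc : ∀ {V : Set ℝ}, (∀ x ∈ V, q.eval x ≠ 0) →
      ContinuousOn (fun r => p.eval r / q.eval r) V := fun h =>
    p.continuous.continuousOn.div q.continuous.continuousOn h
  by_cases hW : ∃ y : ℝ, p - Polynomial.C y * q = 0
  · obtain ⟨y, hy⟩ := hW
    have h0 : ∀ {V : Set ℝ}, (∀ x ∈ V, q.eval x ≠ 0) →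
        ∀ x ∈ V, (fun r => p.eval r / q.eval r) x = y := by
      intro V hqV x hx
      have h1 : p.eval x = y * q.eval x := by
        have := congrArg (Polynomial.eval x) hy
        simp only [Polynomial.eval_sub, Polynomial.eval_mul, Polynomial.eval_C,
          Polynomial.eval_zero] at this
        linarith
      simp only [h1]
      exact mul_div_cancel_right₀ y (hqV x hx)
    rw [var_of_const (h0 hqI), var_of_const (h0 hqJ)]
    simp
  · push Not at hW
    set R : ℝ → Finset ℝ := fun y => (p - Polynomial.C y * q).roots.toFinset with hR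
    have hRm : ∀ {V : Set ℝ}, (∀ x ∈ V, q.eval x ≠ 0) →
        ∀ y, ∀ x ∈ V, (fun r => p.eval r / q.eval r) x = y → x ∈ R y := by
      intro V hqV y x hx he
      rw [hR, Multiset.mem_toFinset, Polynomial.mem_roots (hW y)]
      simp only at he
      rw [div_eq_iff (hqV x hx)] at he
      simp [he]
    have v1 := var_le_count hI (hc hqI) hbI R (hRm hqI)
    have v2 := var_le_count hJ (hc hqJ) hbJ R (hRm hqJ)
    refine (add_le_add v1 v2).trans ((le_lintegral_add _ _).trans ?_)
    calc _ ≤ ∫⁻ _ in Icc m M, (n : ℝ≥0∞) := by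
          refine lintegral_mono fun y => ?_
          simp only
          norm_cast
          rw [← Finset.card_union_of_disjoint]
          · refine (Finset.card_le_card (t := R y) ?_).trans ?_
            · exact Finset.union_subset (Finset.filter_subset _ _) (Finset.filter_subset _ _)
            · refine (Multiset.toFinset_card_le _).trans ((Polynomial.card_roots' _).trans ?_)
              refine (Polynomial.natDegree_sub_le _ _).trans (max_le hp ?_)
              exact (Polynomial.natDegree_C_mul_le _ _).trans hq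
          · rw [Finset.disjoint_left]
            intro x hx hx'
            exact Set.disjoint_left.1 hIJ (Finset.mem_filter.1 hx).2 (Finset.mem_filter.1 hx').2
      _ = _ := by
          rw [lintegral_const, Measure.restrict_apply MeasurableSet.univ, univ_inter,
            Real.volume_Icc]

end Pool.Agent.TH525.AG
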