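import Mathlib
import Pool.Agent.TH525.PU.Orbit

/-! Change of time, and logarithmic polar coordinates, for closed orbits. -/

open Set MeasureTheory Topology Filter
open scoped ENNReal NNReal

namespace Pool.Agent.TH525.AG

open Pool.Agent.TH525.PU

/-- change of time -/
theorem time_change {Y : ℝ × ℝ → ℝ × ℝ} {q : ℝ × ℝ → ℝ} {γ : ℝ → ℝ × ℝ}
    (hγ : ∀ t, HasDerivAt γ (q (γ t) • Y (γ t)) t) (hq : Continuous fun t => q (γ t))
    (hpos : ∀ t, 0 < q (γ t)) {S : ℝ} (hS : 0 < S) (hper : ∀ t, γ (t + S) = γ t) :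
    ∃ Γ : ℝ → ℝ × ℝ, ∃ S' : ℝ, 0 < S' ∧ (∀ t, HasDerivAt Γ (Y (Γ t)) t) ∧
      (∀ t, Γ (t + S') = Γ t) ∧ range Γ = range γ := by
  set h : ℝ → ℝ := fun t => q (γ t) with hh
  set A : ℝ → ℝ := fun t => ∫ τ in (0:ℝ)..t, h τ with hA
  have hAd : ∀ t, HasDerivAt A (h t) t := fun t =>
    intervalIntegral.integral_hasDerivAt_right (hq.intervalIntegrable _ _)
      (hq.stronglyMeasurableAtFilter _ _) hq.continuousAt
  have hA0 : A 0 = 0 := by simp [hA]
  have hmono : StrictMono A := strictMono_of_deriv_pos fun t => by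
    rw [(hAd t).deriv]; exact hpos t
  have hAc : Continuous A := continuous_iff_continuousAt.2 fun t => (hAd t).continuousAt
  -- periodicity
  have hhper : ∀ t, h (t + S) = h t := fun t => by simp only [hh, hper]
  have hAS : ∀ t, A (t + S) = A t + A S := by
    intro t
    have hd : ∀ t, HasDerivAt (fun t => A (t + S) - A t) 0 t := by
      intro t
      have := ((hAd (t + S)).comp_add_const t S).sub (hAd t)
      rw [hhper, sub_self] at this
      exact this
    have := is_const_of_deriv_eq_zero (fun t => (hd t).differentiableAt) (fun t => (hd t).deriv) t 0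
    simp only [zero_add, hA0, sub_zero] at this
    linarith
  have hASpos : 0 < A S := by rw [← hA0]; exact hmono hS
  -- lower bound of `h`
  obtain ⟨t₁, ht₁, hmin⟩ := (isCompact_Icc (a := (0:ℝ)) (b := S)).exists_isMinOn
    (nonempty_Icc.2 hS.le) hq.continuousOn
  have hperiodic : Function.Periodic h S := hhper
  have hlow : ∀ t, h t₁ ≤ h t := by
    intro t
    obtain ⟨y, hy, hy'⟩ := hperiodic.exists_mem_Ico₀ hS t
    rw [hy']
    exact hmin (Ico_subset_Icc_self hy)
  have hc0 : 0 < h t₁ := hpos t₁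
  have hgrow : ∀ s t, s ≤ t → h t₁ * (t - s) ≤ A t - A s := by
    intro s t hst
    have hd : ∀ t, HasDerivAt (fun t => A t - h t₁ * t) (h t - h t₁) t := by
      intro t
      have h1 := (hAd t).sub ((hasDerivAt_id t).const_mul (h t₁))
      rw [mul_one] at h1
      exact h1
    have hm : Monotone (fun t => A t - h t₁ * t) := monotone_of_deriv_nonneg
      (fun t => (hd t).differentiableAt) (fun t => by rw [(hd t).deriv]; linarith [hlow t])
    have := hm hst
    simp only at this
    linarith
  have htop : Tendsto A atTop atTop := by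
    refine tendsto_atTop_mono' atTop ?_ (tendsto_id.const_mul_atTop hc0)
    filter_upwards [eventually_ge_atTop 0] with t ht
    have := hgrow 0 t ht
    rw [hA0] at this
    simp only [id]
    linarith
  have hbot : Tendsto A atBot atBot := by
    refine tendsto_atBot_mono' atBot ?_ (tendsto_id.const_mul_atBot hc0)
    filter_upwards [eventually_le_atBot 0] with t ht
    have := hgrow t 0 ht
    rw [hA0] at this
    simp only [id]
    linarith
  have hsurj : Function.Surjective A := hAc.surjective htop hbot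
  set e := hmono.orderIsoOfSurjective A hsurj with he
  have hAe : ∀ y, A (e.symm y) = y := fun y => e.apply_symm_apply y
  have heA : ∀ t, e.symm (A t) = t := fun t => e.symm_apply_apply t
  have hed : ∀ y, HasDerivAt e.symm (h (e.symm y))⁻¹ y := by
    intro y
    refine HasDerivAt.of_local_left_inverse (f := A) e.symm.continuous.continuousAt
      (hAd _) (hpos _).ne' (Filter.Eventually.of_forall hAe)
  refine ⟨fun y => γ (e.symm y), A S, hASpos, ?_, ?_, ?_⟩
  · intro y
    have := (hγ (e.symm y)).scomp y (hed y)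
    rw [smul_smul] at this
    have h1 : (h (e.symm y))⁻¹ * q (γ (e.symm y)) = 1 := inv_mul_cancel₀ (hpos _).ne'
    rw [h1, one_smul] at this
    exact this
  · intro y
    have : e.symm (y + A S) = e.symm y + S := by
      rw [← heA (e.symm y + S), hAS, hAe]
    simp only [this, hper]
  · ext p
    constructor
    · rintro ⟨y, rfl⟩; exact ⟨_, rfl⟩
    · rintro ⟨t, rfl⟩; exact ⟨A t, by simp only [heA]⟩

/-- logarithmic polar coordinates -/
theorem polar_aux {H : ℝ × ℝ → ℝ} {s : ℝ} {γ : ℝ → ℝ × ℝ}
    (hγ : ∀ t, HasDerivAt γ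
      (- (γ t).2 + (γ t).1 * (H (γ t) + s), (γ t).1 + (γ t).2 * (H (γ t) + s)) t)
    (hHc : Continuous fun t => H (γ t)) (hnc : ∃ a b, γ a ≠ γ b) :
    ∃ ρ : ℝ → ℝ, ∃ θ : ℝ, (∀ t, curve ρ t = γ (t - θ)) ∧
      ∀ t, HasDerivAt ρ (H (curve ρ t) + s) t := by
  have hx : ∀ t, HasDerivAt (fun t => (γ t).1) (- (γ t).2 + (γ t).1 * (H (γ t) + s)) t :=
    fun t => (hγ t).fst
  have hy : ∀ t, HasDerivAt (fun t => (γ t).2) ((γ t).1 + (γ t).2 * (H (γ t) + s)) t :=
    fun t => (hγ t).snd
  set h : ℝ → ℝ := fun t => H (γ t) + s with hh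
  have hhc : Continuous h := hHc.add continuous_const
  set A : ℝ → ℝ := fun t => ∫ τ in (0:ℝ)..t, h τ with hA
  have hAd : ∀ t, HasDerivAt A (h t) t := fun t =>
    intervalIntegral.integral_hasDerivAt_right (hhc.intervalIntegrable _ _)
      (hhc.stronglyMeasurableAtFilter _ _) hhc.continuousAt
  have hA0 : A 0 = 0 := by simp [hA]
  have hE : ∀ t, HasDerivAt (fun t => Real.exp (- A t)) (Real.exp (- A t) * (- h t)) t :=
    fun t => (hAd t).neg.exp
  have hu : ∀ t, Real.exp (- A t) * ((γ t).1 * Real.cos t + (γ t).2 * Real.sin t) = (γ 0).1 := by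
    intro t
    have hd : ∀ t, HasDerivAt (fun t => Real.exp (- A t) *
        ((γ t).1 * Real.cos t + (γ t).2 * Real.sin t)) 0 t := by
      intro t
      have := (hE t).mul (((hx t).mul (Real.hasDerivAt_cos t)).add
        ((hy t).mul (Real.hasDerivAt_sin t)))
      refine this.congr_deriv ?_
      simp only [hh, Pi.add_apply, Pi.mul_apply]
      ring
    have := is_const_of_deriv_eq_zero (fun t => (hd t).differentiableAt) (fun t => (hd t).deriv) t 0
    rw [this]
    simp [hA0]
  have hv : ∀ t, Real.exp (- A t) * ((γ t).2 * Real.cos t - (γ t).1 * Real.sin t) = (γ 0).2 := by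
    intro t
    have hd : ∀ t, HasDerivAt (fun t => Real.exp (- A t) *
        ((γ t).2 * Real.cos t - (γ t).1 * Real.sin t)) 0 t := by
      intro t
      have := (hE t).mul (((hy t).mul (Real.hasDerivAt_cos t)).sub
        ((hx t).mul (Real.hasDerivAt_sin t)))
      refine this.congr_deriv ?_
      simp only [hh, Pi.sub_apply, Pi.mul_apply]
      ring
    have := is_const_of_deriv_eq_zero (fun t => (hd t).differentiableAt) (fun t => (hd t).deriv) t 0
    rw [this]
    simp [hA0]
  set z : ℂ := ⟨(γ 0).1, (γ 0).2⟩ with hz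
  set r0 : ℝ := ‖z‖ with hr0
  set θ : ℝ := z.arg with hθ
  have c1 : r0 * Real.cos θ = (γ 0).1 := Complex.norm_mul_cos_arg z
  have c2 : r0 * Real.sin θ = (γ 0).2 := Complex.norm_mul_sin_arg z
  have hx' : ∀ t, (γ t).1 = r0 * Real.exp (A t) * Real.cos (t + θ) := by
    intro t
    have h1 := hu t
    have h2 := hv t
    have h3 : Real.exp (A t) * Real.exp (- A t) = 1 := by rw [← Real.exp_add]; simp
    have h4 := Real.sin_sq_add_cos_sq t
    rw [Real.cos_add]
    have h5 : r0 * Real.exp (A t) * (Real.cos t * Real.cos θ - Real.sin t * Real.sin θ) =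
        Real.exp (A t) * ((γ 0).1 * Real.cos t - (γ 0).2 * Real.sin t) := by
      rw [← c1, ← c2]; ring
    rw [h5, ← h1, ← h2]
    calc (γ t).1 = (Real.exp (A t) * Real.exp (- A t)) * ((γ t).1 *
          (Real.sin t ^ 2 + Real.cos t ^ 2)) := by rw [h3, h4]; ring
      _ = _ := by ring
  have hy' : ∀ t, (γ t).2 = r0 * Real.exp (A t) * Real.sin (t + θ) := by
    intro t
    have h1 := hu t
    have h2 := hv t
    have h3 : Real.exp (A t) * Real.exp (- A t) = 1 := by rw [← Real.exp_add]; simp
    have h4 := Real.sin_sq_add_cos_sq t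
    rw [Real.sin_add]
    have h5 : r0 * Real.exp (A t) * (Real.sin t * Real.cos θ + Real.cos t * Real.sin θ) =
        Real.exp (A t) * ((γ 0).1 * Real.sin t + (γ 0).2 * Real.cos t) := by
      rw [← c1, ← c2]; ring
    rw [h5, ← h1, ← h2]
    calc (γ t).2 = (Real.exp (A t) * Real.exp (- A t)) * ((γ t).2 *
          (Real.sin t ^ 2 + Real.cos t ^ 2)) := by rw [h3, h4]; ring
      _ = _ := by ring
  have hr0p : 0 < r0 := by
    rcases (norm_nonneg z).eq_or_lt with h0 | h0
    · exfalso
      obtain ⟨a, b, hab⟩ := hnc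
      apply hab
      have hr : r0 = 0 := h0.symm
      ext
      · rw [hx' a, hx' b, hr]; ring
      · rw [hy' a, hy' b, hr]; ring
    · exact h0
  have hcur : ∀ t, curve (fun t => Real.log r0 + A (t - θ)) t = γ (t - θ) := by
    intro t
    unfold curve
    rw [Real.exp_add, Real.exp_log hr0p]
    ext
    · simp only [hx' (t - θ), sub_add_cancel]
    · simp only [hy' (t - θ), sub_add_cancel]
  refine ⟨fun t => Real.log r0 + A (t - θ), θ, hcur, fun t => ?_⟩
  have h1 : HasDerivAt (fun t => A (t - θ)) (h (t - θ)) t :=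
    (hAd (t - θ)).comp_sub_const t θ
  refine (h1.const_add (Real.log r0)).congr_deriv ?_
  rw [hcur t]

end Pool.Agent.TH525.AG
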