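import Mathlib
import Pool.Agent.TH525.AG.Roots
import Pool.Agent.TH525.AG.Time
import Pool.Agent.TH525.AG.GMean

/-! Polynomial systems in regions where the flow turns about the origin. -/

open Set MeasureTheory Topology Filter
open scoped ENNReal NNReal

namespace Pool.Agent.TH525.AG

open Pool.Agent.TH525.PU

/-- value at a point of the plane -/
noncomputable def ev (F : MvPolynomial (Fin 2) ℝ) (p : ℝ × ℝ) : ℝ :=
  MvPolynomial.eval ![p.1, p.2] F

/-- `x f + y g` -/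
noncomputable def rad (f g : MvPolynomial (Fin 2) ℝ) (p : ℝ × ℝ) : ℝ := p.1 * ev f p + p.2 * ev g p

/-- `x g - y f` -/
noncomputable def ang (f g : MvPolynomial (Fin 2) ℝ) (p : ℝ × ℝ) : ℝ := p.1 * ev g p - p.2 * ev f p

/-- the perturbed field -/
noncomputable def field (f g : MvPolynomial (Fin 2) ℝ) (s : ℝ) (p : ℝ × ℝ) : ℝ × ℝ :=
  (ev f p + s * (ang f g p / (p.1 ^ 2 + p.2 ^ 2)) * p.1,
    ev g p + s * (ang f g p / (p.1 ^ 2 + p.2 ^ 2)) * p.2)

/-- the closed orbits in a region -/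
def closedOrbitsIn (X : ℝ × ℝ → ℝ × ℝ) (A : Set (ℝ × ℝ)) : Set (Set (ℝ × ℝ)) :=
  {C | (∃ γ : ℝ → ℝ × ℝ, ∃ T : ℝ, 0 < T ∧ (∀ t : ℝ, HasDerivAt γ (X (γ t)) t) ∧
    (∀ t : ℝ, γ (t + T) = γ t) ∧ (∃ a b : ℝ, γ a ≠ γ b) ∧ C = range γ) ∧ C ⊆ A}

lemma ev_cont (F : MvPolynomial (Fin 2) ℝ) : Continuous (ev F) := evalH_cont F

lemma rad_cont (f g : MvPolynomial (Fin 2) ℝ) : Continuous (rad f g) :=
  (continuous_fst.mul (ev_cont f)).add (continuous_snd.mul (ev_cont g))

lemma ang_cont (f g : MvPolynomial (Fin 2) ℝ) : Continuous (ang f g) :=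
  (continuous_fst.mul (ev_cont g)).sub (continuous_snd.mul (ev_cont f))

/-- the point with logarithmic polar coordinates -/
noncomputable def pt (t x : ℝ) : ℝ × ℝ := (Real.exp x * Real.cos t, Real.exp x * Real.sin t)

lemma curve_eq (ρ : ℝ → ℝ) (t : ℝ) : curve ρ t = pt t (ρ t) := rfl

lemma pt_per (t x : ℝ) : pt (t + 2 * Real.pi) x = pt t x := by
  unfold pt; rw [Real.cos_add_two_pi, Real.sin_add_two_pi]

/-- the scalar right-hand side -/
noncomputable def sc (f g : MvPolynomial (Fin 2) ℝ) (t x : ℝ) : ℝ :=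
  rad f g (pt t x) / ang f g (pt t x)

/-- the region in logarithmic polar coordinates -/
def reg (A : Set (ℝ × ℝ)) (t : ℝ) : Set ℝ := {x | pt t x ∈ A}

lemma ev_contDiff (F : MvPolynomial (Fin 2) ℝ) :
    ContDiff ℝ 1 (fun p : ℝ × ℝ => ev F (pt p.1 p.2)) := by
  refine evalH_contDiff F ?_ ?_
  · exact (Real.contDiff_exp.comp contDiff_snd).mul (Real.contDiff_cos.comp contDiff_fst)
  · exact (Real.contDiff_exp.comp contDiff_snd).mul (Real.contDiff_sin.comp contDiff_fst)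

lemma rad_contDiff (f g : MvPolynomial (Fin 2) ℝ) :
    ContDiff ℝ 1 (fun p : ℝ × ℝ => rad f g (pt p.1 p.2)) := by
  have h1 : ContDiff ℝ 1 (fun p : ℝ × ℝ => (pt p.1 p.2).1) :=
    (Real.contDiff_exp.comp contDiff_snd).mul (Real.contDiff_cos.comp contDiff_fst)
  have h2 : ContDiff ℝ 1 (fun p : ℝ × ℝ => (pt p.1 p.2).2) :=
    (Real.contDiff_exp.comp contDiff_snd).mul (Real.contDiff_sin.comp contDiff_fst)
  exact (h1.mul (ev_contDiff f)).add (h2.mul (ev_contDiff g))

lemma ang_contDiff (f g : MvPolynomial (Fin 2) ℝ) :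
    ContDiff ℝ 1 (fun p : ℝ × ℝ => ang f g (pt p.1 p.2)) := by
  have h1 : ContDiff ℝ 1 (fun p : ℝ × ℝ => (pt p.1 p.2).1) :=
    (Real.contDiff_exp.comp contDiff_snd).mul (Real.contDiff_cos.comp contDiff_fst)
  have h2 : ContDiff ℝ 1 (fun p : ℝ × ℝ => (pt p.1 p.2).2) :=
    (Real.contDiff_exp.comp contDiff_snd).mul (Real.contDiff_sin.comp contDiff_fst)
  exact (h1.mul (ev_contDiff g)).sub (h2.mul (ev_contDiff f))

/-- local Lipschitz bound in a compact tube -/
theorem tube_lip {N D : ℝ × ℝ → ℝ} (hN : ContDiff ℝ 1 N) (hD : ContDiff ℝ 1 D) {a b : ℝ}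
    {φ ψ : ℝ → ℝ} (hφ : ContinuousOn φ (Icc a b)) (hψ : ContinuousOn ψ (Icc a b))
    (hne : ∀ t ∈ Icc a b, ∀ x ∈ uIcc (φ t) (ψ t), D (t, x) ≠ 0) :
    ∃ K : ℝ≥0, ∀ t ∈ Icc a b, LipschitzOnWith K (fun x => N (t, x) / D (t, x))
      (uIcc (φ t) (ψ t)) := by
  set tube : Set (ℝ × ℝ) := (fun p : ℝ × ℝ => (p.1, φ p.1 + p.2 * (ψ p.1 - φ p.1))) ''
    (Icc a b ×ˢ Icc 0 1) with htube
  have hcomp : IsCompact tube := by
    refine (isCompact_Icc.prod isCompact_Icc).image_of_continuousOn ?_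
    have h1 : ContinuousOn (fun p : ℝ × ℝ => φ p.1) (Icc a b ×ˢ Icc 0 1) :=
      hφ.comp continuousOn_fst (fun p hp => hp.1)
    have h2 : ContinuousOn (fun p : ℝ × ℝ => ψ p.1) (Icc a b ×ˢ Icc 0 1) :=
      hψ.comp continuousOn_fst (fun p hp => hp.1)
    exact continuousOn_fst.prodMk (h1.add (continuousOn_snd.mul (h2.sub h1)))
  have hseg : ∀ t x, t ∈ Icc a b → x ∈ uIcc (φ t) (ψ t) → ((t, x) : ℝ × ℝ) ∈ tube := by
    intro t x ht hx
    rw [← segment_eq_uIcc, segment_eq_image'] at hx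
    obtain ⟨l, hl, rfl⟩ := hx
    exact ⟨(t, l), ⟨ht, hl⟩, by simp⟩
  have hseg' : ∀ p ∈ tube, D p ≠ 0 := by
    rintro _ ⟨⟨t, l⟩, ⟨ht, hl⟩, rfl⟩
    refine hne t ht _ ?_
    rw [← segment_eq_uIcc, segment_eq_image']
    exact ⟨l, hl, by simp⟩
  have hd : ∀ {G : ℝ × ℝ → ℝ}, ContDiff ℝ 1 G → ∀ t x,
      HasDerivAt (fun x => G (t, x)) (fderiv ℝ G (t, x) (0, 1)) x := by
    intro G hG t x
    have h1 : HasFDerivAt G (fderiv ℝ G (t, x)) (t, x) :=
      (hG.differentiable (by simp) (t, x)).hasFDerivAt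
    have h2 : HasDerivAt (fun x : ℝ => ((t, x) : ℝ × ℝ)) (0, 1) x :=
      (hasDerivAt_const x t).prodMk (hasDerivAt_id x)
    exact h1.comp_hasDerivAt x h2
  have hcd : ∀ {G : ℝ × ℝ → ℝ}, ContDiff ℝ 1 G →
      Continuous (fun p => fderiv ℝ G p ((0:ℝ), (1:ℝ))) := by
    intro G hG
    exact (hG.continuous_fderiv (by simp)).clm_apply continuous_const
  set F' : ℝ × ℝ → ℝ := fun p => (fderiv ℝ N p (0, 1) * D p - N p * fderiv ℝ D p (0, 1)) /
    (D p) ^ 2 with hF'
  have hF'c : ContinuousOn F' tube := by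
    refine ContinuousOn.div ?_ (hD.continuous.pow 2).continuousOn
      (fun p hp => pow_ne_zero 2 (hseg' p hp))
    exact (((hcd hN).mul hD.continuous).sub (hN.continuous.mul (hcd hD))).continuousOn
  obtain ⟨C, hC⟩ := hcomp.exists_bound_of_continuousOn hF'c
  refine ⟨C.toNNReal, fun t ht => ?_⟩
  refine (convex_uIcc _ _).lipschitzOnWith_of_nnnorm_hasDerivWithin_le
    (f' := fun x => F' (t, x)) (fun x hx => ?_) (fun x hx => ?_)
  · exact ((hd hN t x).div (hd hD t x) (hne t ht x hx)).hasDerivWithinAt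
  · have := hC (t, x) (hseg t x ht hx)
    rw [← NNReal.coe_le_coe, coe_nnnorm]
    exact this.trans (Real.le_coe_toNNReal C)

variable {f g : MvPolynomial (Fin 2) ℝ} {A : Set (ℝ × ℝ)}

lemma reg_lip (hA : ∀ t, (reg A t).OrdConnected) (hpos : ∀ p ∈ A, 0 < ang f g p) {a b : ℝ}
    {φ ψ : ℝ → ℝ} (hφ : ContinuousOn φ (Icc a b)) (hψ : ContinuousOn ψ (Icc a b))
    (hm : ∀ t ∈ Icc a b, φ t ∈ reg A t ∧ ψ t ∈ reg A t) :
    ∃ K : ℝ≥0, ∀ t ∈ Icc a b, LipschitzOnWith K (sc f g t) (uIcc (φ t) (ψ t)) :=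
  tube_lip (rad_contDiff f g) (ang_contDiff f g) hφ hψ fun t ht x hx =>
    (hpos _ ((hA t).uIcc_subset (hm t ht).1 (hm t ht).2 hx)).ne'

lemma locLip (hA : ∀ t, (reg A t).OrdConnected) (hpos : ∀ p ∈ A, 0 < ang f g p) (T : ℝ) :
    LocLip T (reg A) (sc f g) := fun φ ψ hφ hψ hm => reg_lip hA hpos hφ hψ hm

lemma sc_cont (hpos : ∀ p ∈ A, 0 < ang f g p) (T : ℝ) :
    ContinuousOn (Function.uncurry (sc f g)) (Reg T (reg A)) := by
  refine ContinuousOn.div (rad_contDiff f g).continuous.continuousOn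
    (ang_contDiff f g).continuous.continuousOn fun p hp => ?_
  exact (hpos _ hp.2).ne'

lemma pos_of_ang {p : ℝ × ℝ} (h : 0 < ang f g p) : 0 < p.1 ^ 2 + p.2 ^ 2 := by
  by_contra hcon
  have h1 : p.1 = 0 := by nlinarith [sq_nonneg p.1, sq_nonneg p.2]
  have h2 : p.2 = 0 := by nlinarith [sq_nonneg p.1, sq_nonneg p.2]
  unfold ang at h
  rw [h1, h2] at h
  simp at h

/-- reduction to logarithmic polar coordinates -/
theorem orbit_sc (hA : ∀ t, (reg A t).OrdConnected) (hpos : ∀ p ∈ A, 0 < ang f g p) {s : ℝ}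
    {C : Set (ℝ × ℝ)} (hC : C ∈ closedOrbitsIn (field f g s) A) :
    ∃ ρ : ℝ → ℝ, IsClosedIn (2 * Real.pi) (reg A) (sc f g) s ρ ∧
      C = curve ρ '' Icc 0 (2 * Real.pi) := by
  obtain ⟨⟨γ, S, hS, hγ, hper, hnc, rfl⟩, hsub⟩ := hC
  have hγA : ∀ t, γ t ∈ A := fun t => hsub ⟨t, rfl⟩
  have hγc : Continuous γ := continuous_iff_continuousAt.2 fun t => (hγ t).continuousAt
  set q : ℝ × ℝ → ℝ := fun p => ang f g p / (p.1 ^ 2 + p.2 ^ 2) with hq
  set Y : ℝ × ℝ → ℝ × ℝ := fun p =>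
    (- p.2 + p.1 * (rad f g p / ang f g p + s), p.1 + p.2 * (rad f g p / ang f g p + s)) with hY
  have hfield : ∀ p ∈ A, field f g s p = q p • Y p := by
    intro p hp
    have h1 := hpos p hp
    have h2 := pos_of_ang h1
    have h3 := h1.ne'
    have h4 := h2.ne'
    ext
    · simp only [field, hq, hY, Prod.smul_fst, smul_eq_mul]
      have : rad f g p * p.1 - ang f g p * p.2 = (p.1 ^ 2 + p.2 ^ 2) * ev f p := by
        unfold rad ang; ring
      field_simp
      linear_combination (-1) * this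
    · simp only [field, hq, hY, Prod.smul_snd, smul_eq_mul]
      have : rad f g p * p.2 + ang f g p * p.1 = (p.1 ^ 2 + p.2 ^ 2) * ev g p := by
        unfold rad ang; ring
      field_simp
      linear_combination (-1) * this
  have hqpos : ∀ t, 0 < q (γ t) := fun t =>
    div_pos (hpos _ (hγA t)) (pos_of_ang (hpos _ (hγA t)))
  have hqc : Continuous fun t => q (γ t) := by
    refine Continuous.div ((ang_cont f g).comp hγc) ?_
      (fun t => (pos_of_ang (hpos _ (hγA t))).ne')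
    exact ((continuous_fst.comp hγc).pow 2).add ((continuous_snd.comp hγc).pow 2)
  obtain ⟨Γ, S', hS', hΓ, hΓper, hrange⟩ := time_change (Y := Y) (q := q)
    (fun t => by rw [← hfield _ (hγA t)]; exact hγ t) hqc hqpos hS hper
  have hΓA : ∀ t, Γ t ∈ A := by
    intro t
    have : Γ t ∈ range γ := hrange ▸ ⟨t, rfl⟩
    exact hsub this
  have hΓc : Continuous Γ := continuous_iff_continuousAt.2 fun t => (hΓ t).continuousAt
  have hHc : Continuous fun t => rad f g (Γ t) / ang f g (Γ t) :=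
    ((rad_cont f g).comp hΓc).div ((ang_cont f g).comp hΓc) (fun t => (hpos _ (hΓA t)).ne')
  have hnc' : ∃ a b, Γ a ≠ Γ b := by
    obtain ⟨a, b, hab⟩ := hnc
    have ha : γ a ∈ range Γ := by rw [hrange]; exact ⟨a, rfl⟩
    have hb : γ b ∈ range Γ := by rw [hrange]; exact ⟨b, rfl⟩
    obtain ⟨a', ha'⟩ := ha
    obtain ⟨b', hb'⟩ := hb
    exact ⟨a', b', by rw [ha', hb']; exact hab⟩
  obtain ⟨ρ, θ, hcur, hρ⟩ := polar_aux (H := fun p => rad f g p / ang f g p) (s := s) hΓ hHc hnc'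
  have hpi := Real.two_pi_pos
  have hmem : ∀ t, ρ t ∈ reg A t := by
    intro t
    show pt t (ρ t) ∈ A
    rw [← curve_eq, hcur t]
    exact hΓA _
  have hρ' : ∀ t, HasDerivAt ρ (sc f g t (ρ t) + s) t := hρ
  have hcp : ∀ t, curve ρ (t + S') = curve ρ t := by
    intro t
    rw [hcur, hcur, show t + S' - θ = (t - θ) + S' by ring, hΓper]
  -- the period is a multiple of `2π`
  have hS0 : ρ S' = ρ 0 ∧ Real.cos S' = 1 := by
    have h1 := hcp 0
    rw [zero_add] at h1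
    unfold curve at h1
    rw [Real.cos_zero, Real.sin_zero, mul_one, mul_zero] at h1
    have h2 := congrArg Prod.fst h1
    have h3 := congrArg Prod.snd h1
    simp only at h2 h3
    have h4 : Real.exp (ρ S') ^ 2 = Real.exp (ρ 0) ^ 2 := by
      have := Real.sin_sq_add_cos_sq S'
      calc Real.exp (ρ S') ^ 2 = Real.exp (ρ S') ^ 2 * (Real.sin S' ^ 2 + Real.cos S' ^ 2) := by
            rw [this, mul_one]
        _ = (Real.exp (ρ S') * Real.cos S') ^ 2 + (Real.exp (ρ S') * Real.sin S') ^ 2 := by ring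
        _ = _ := by rw [h2, h3]; ring
    have h5 : Real.exp (ρ S') = Real.exp (ρ 0) :=
      (pow_left_inj₀ (Real.exp_pos _).le (Real.exp_pos _).le two_ne_zero).1 h4
    refine ⟨Real.exp_injective h5, ?_⟩
    rw [h5] at h2
    have := (Real.exp_pos (ρ 0)).ne'
    exact mul_left_cancel₀ this (by rw [h2, mul_one])
  obtain ⟨k, hk⟩ := (Real.cos_eq_one_iff S').1 hS0.2
  have hk0 : 0 < k := by
    by_contra hcon
    push Not at hcon
    have : (k:ℝ) ≤ 0 := by exact_mod_cast hcon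
    nlinarith
  have hscp : ∀ t x, sc f g (t + 2 * Real.pi) x = sc f g t x := by
    intro t x
    unfold sc
    rw [pt_per]
  have hregp : ∀ t, reg A (t + 2 * Real.pi) = reg A t := by
    intro t
    unfold reg
    simp only [pt_per]
  have hρ2 : ∀ t, HasDerivAt (fun t => ρ (t + 2 * Real.pi))
      (sc f g t (ρ (t + 2 * Real.pi)) + s) t := by
    intro t
    have := (hρ' (t + 2 * Real.pi)).comp_add_const t (2 * Real.pi)
    rwa [hscp] at this
  have hρc : Continuous ρ := continuous_iff_continuousAt.2 fun t => (hρ t).continuousAt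
  have hρ2c : Continuous fun t => ρ (t + 2 * Real.pi) :=
    hρc.comp (continuous_id.add continuous_const)
  have huniq : ∀ t₀, ρ (t₀ + 2 * Real.pi) = ρ t₀ → ∀ t, ρ (t + 2 * Real.pi) = ρ t := by
    intro t₀ ht₀ t
    set a := min t₀ t - 1 with ha
    set b := max t₀ t + 1 with hb
    obtain ⟨K, hK⟩ := reg_lip (f := f) (g := g) hA hpos (a := a) (b := b)
      (φ := fun t => ρ (t + 2 * Real.pi)) (ψ := ρ) hρ2c.continuousOn hρc.continuousOn
      (fun t _ => ⟨by rw [← hregp t]; exact hmem _, hmem t⟩)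
    have h1 := ODE_solution_unique_of_mem_Icc (v := fun t x => sc f g t x + s)
      (s := fun t => uIcc (ρ (t + 2 * Real.pi)) (ρ t)) (K := K) (t₀ := t₀)
      (f := fun t => ρ (t + 2 * Real.pi)) (g := ρ) (a := a) (b := b)
      (fun t ht => by
        intro x hx y hy
        have := hK t (Ioo_subset_Icc_self ht) hx hy
        simpa [edist_add_right] using this)
      ⟨by rw [ha]; linarith [min_le_left t₀ t], by rw [hb]; linarith [le_max_left t₀ t]⟩
      hρ2c.continuousOn (fun t _ => hρ2 t) (fun t _ => left_mem_uIcc)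
      hρc.continuousOn (fun t _ => hρ' t) (fun t _ => right_mem_uIcc) ht₀
    exact h1 ⟨by rw [ha]; linarith [min_le_right t₀ t], by rw [hb]; linarith [le_max_right t₀ t]⟩
  set D : ℝ → ℝ := fun t => ρ (t + 2 * Real.pi) - ρ t with hD
  have hDc : Continuous D := hρ2c.sub hρc
  have hchain : ∀ j : ℕ, ρ (2 * Real.pi * (j + 1)) - ρ 0 =
      ∑ i ∈ Finset.range (j + 1), D (2 * Real.pi * i) := by
    intro j
    induction j with
    | zero => simp [hD]
    | succ j ih =>
      rw [Finset.sum_range_succ, ← ih]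
      simp only [hD]
      push_cast
      rw [show 2 * Real.pi * ((j:ℝ) + 1) + 2 * Real.pi = 2 * Real.pi * (j + 1 + 1) by ring]
      ring
  obtain ⟨j, hj⟩ : ∃ j : ℕ, k = (j:ℤ) + 1 := ⟨(k - 1).toNat, by omega⟩
  have hsum : ∑ i ∈ Finset.range (j + 1), D (2 * Real.pi * i) = 0 := by
    rw [← hchain j]
    have : 2 * Real.pi * ((j:ℝ) + 1) = S' := by
      rw [← hk, hj]; push_cast; ring
    rw [this, hS0.1, sub_self]
  have hzero : ∃ t₀, D t₀ = 0 := by
    by_contra hcon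
    push Not at hcon
    rcases lt_or_gt_of_ne (hcon 0) with h0 | h0
    · have hneg : ∀ t, D t < 0 := by
        intro t
        by_contra hc
        push Not at hc
        obtain ⟨t₀, ht₀⟩ := mem_range_of_exists_le_of_exists_ge hDc ⟨0, h0.le⟩ ⟨t, hc⟩
        exact hcon t₀ ht₀
      have := Finset.sum_neg (s := Finset.range (j + 1)) (f := fun i : ℕ => D (2 * Real.pi * i))
        (fun i _ => hneg _) ⟨0, by simp⟩
      linarith
    · have hpos : ∀ t, 0 < D t := by
        intro t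
        by_contra hc
        push Not at hc
        obtain ⟨t₀, ht₀⟩ := mem_range_of_exists_le_of_exists_ge hDc ⟨t, hc⟩ ⟨0, h0.le⟩
        exact hcon t₀ ht₀
      have := Finset.sum_pos (s := Finset.range (j + 1)) (f := fun i : ℕ => D (2 * Real.pi * i))
        (fun i _ => hpos _) ⟨0, by simp⟩
      linarith
  obtain ⟨t₀, ht₀⟩ := hzero
  have hp := huniq t₀ (by simp only [hD] at ht₀; linarith)
  refine ⟨ρ, ⟨fun t _ => (hρ' t).hasDerivWithinAt, ?_, fun t _ => hmem t⟩, ?_⟩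
  · have := hp 0
    rw [zero_add] at this
    exact this.symm
  · have h1 : Function.Periodic (curve ρ) (2 * Real.pi) := by
      intro t
      unfold curve
      rw [hp, Real.cos_add_two_pi, Real.sin_add_two_pi]
    have h2 := h1.image_Icc hpi 0
    rw [zero_add] at h2
    rw [h2, ← hrange]
    ext p
    constructor
    · rintro ⟨t, rfl⟩
      exact ⟨t + θ, by rw [hcur]; simp⟩
    · rintro ⟨t, rfl⟩
      exact ⟨t - θ, (hcur t).symm⟩

theorem ang_empty (hA : ∀ t, (reg A t).OrdConnected) (hpos : ∀ p ∈ A, 0 < ang f g p) {m M : ℝ}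
    (hmM : ∀ p ∈ A, m ≤ rad f g p / ang f g p ∧ rad f g p / ang f g p ≤ M) {s : ℝ}
    (hs : s ∉ Icc (-M) (-m)) : closedOrbitsIn (field f g s) A = ∅ := by
  by_contra hne
  obtain ⟨C, hC⟩ := Set.nonempty_iff_ne_empty.2 hne
  obtain ⟨ρ, hρ, -⟩ := orbit_sc hA hpos hC
  apply hs
  have hpi := Real.two_pi_pos
  have h1 := AG.mean_formula hpi (sc_cont hpos _) hρ
  have i0 : IntervalIntegrable (fun t => sc f g t (ρ t)) volume 0 (2 * Real.pi) :=
    ((hρ.contf (sc_cont hpos _)).mono (by rw [uIcc_of_le hpi.le])).intervalIntegrable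
  have hb : ∀ t ∈ Icc 0 (2 * Real.pi), m ≤ sc f g t (ρ t) ∧ sc f g t (ρ t) ≤ M := fun t ht =>
    hmM _ (hρ.mem t ht)
  have h2 : (2 * Real.pi) * m ≤ ∫ t in (0:ℝ)..(2 * Real.pi), sc f g t (ρ t) := by
    have := intervalIntegral.integral_mono_on (f := fun _ => m) hpi.le
      intervalIntegrable_const i0 (fun t ht => (hb t ht).1)
    simpa using this
  have h3 : ∫ t in (0:ℝ)..(2 * Real.pi), sc f g t (ρ t) ≤ (2 * Real.pi) * M := by
    have := intervalIntegral.integral_mono_on (g := fun _ => M) hpi.le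
      i0 intervalIntegrable_const (fun t ht => (hb t ht).2)
    simpa using this
  constructor
  · have : (2 * Real.pi) * (-M) ≤ (2 * Real.pi) * s := by rw [h1]; linarith
    exact le_of_mul_le_mul_left this hpi
  · have : (2 * Real.pi) * s ≤ (2 * Real.pi) * (-m) := by rw [h1]; linarith
    exact le_of_mul_le_mul_left this hpi

end Pool.Agent.TH525.AG
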