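import Mathlib
import Pool.Agent.TH525.AG.Ang

/-! The mean number of closed orbits in regions where the flow turns about the origin. -/

open Set MeasureTheory Topology Filter
open scoped ENNReal NNReal

namespace Pool.Agent.TH525.AG

open Pool.Agent.TH525.PU

variable {f g : MvPolynomial (Fin 2) ℝ} {A : Set (ℝ × ℝ)}

/-- the part of a region on a ray -/
def ray (A : Set (ℝ × ℝ)) (t : ℝ) : Set ℝ := {r | 0 < r ∧ (r * Real.cos t, r * Real.sin t) ∈ A}

lemma reg_ord (hA : ∀ t, (ray A t).OrdConnected) (t : ℝ) : (reg A t).OrdConnected := by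
  have h1 : reg A t = Real.exp ⁻¹' (ray A t) := by
    ext x
    exact ⟨fun h => ⟨Real.exp_pos x, h⟩, fun h => h.2⟩
  rw [h1]
  exact (hA t).preimage_mono Real.exp_monotone

lemma pt_pi (t x : ℝ) : pt (t + Real.pi) x =
    ((-Real.exp x) * Real.cos t, (-Real.exp x) * Real.sin t) := by
  unfold pt
  rw [Real.cos_add_pi, Real.sin_add_pi]
  ext <;> simp

lemma pair_gen (hA : ∀ t, (ray A t).OrdConnected) {t : ℝ} {p q : Polynomial ℝ} {N : ℕ}
    (hp : p.natDegree ≤ N) (hq : q.natDegree ≤ N)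
    (hpq : ∀ r : ℝ, r ≠ 0 → (r * Real.cos t, r * Real.sin t) ∈ A → q.eval r ≠ 0 ∧
      rad f g (r * Real.cos t, r * Real.sin t) / ang f g (r * Real.cos t, r * Real.sin t) =
        p.eval r / q.eval r) {m M : ℝ}
    (hmM : ∀ p ∈ A, m ≤ rad f g p / ang f g p ∧ rad f g p / ang f g p ≤ M) :
    eVariationOn (sc f g t) (reg A t) + eVariationOn (sc f g (t + Real.pi)) (reg A (t + Real.pi)) ≤
      N * ENNReal.ofReal (M - m) := by
  set R : ℝ → ℝ := fun r => p.eval r / q.eval r with hR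
  set J : Set ℝ := {r | r < 0 ∧ (r * Real.cos t, r * Real.sin t) ∈ A} with hJ
  have hJo : J.OrdConnected := by
    have h1 : J = Neg.neg ⁻¹' (ray A (t + Real.pi)) := by
      ext r
      simp only [hJ, ray, mem_ofPred_eq, mem_preimage, Real.cos_add_pi, Real.sin_add_pi,
        neg_mul_neg, Left.neg_pos_iff]
    rw [h1]
    exact (hA _).preimage_anti (fun _ _ h => neg_le_neg h)
  have e1 : eVariationOn (sc f g t) (reg A t) ≤ eVariationOn R (ray A t) := by
    have h1 : EqOn (sc f g t) (R ∘ Real.exp) (reg A t) := fun x hx =>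
      (hpq (Real.exp x) (Real.exp_pos x).ne' hx).2
    rw [eVariationOn.congr h1]
    exact eVariationOn.comp_le_of_monotoneOn R Real.exp (Real.exp_monotone.monotoneOn _)
      (fun x hx => ⟨Real.exp_pos x, hx⟩)
  have e2 : eVariationOn (sc f g (t + Real.pi)) (reg A (t + Real.pi)) ≤ eVariationOn R J := by
    have hm : ∀ x ∈ reg A (t + Real.pi),
        ((-Real.exp x) * Real.cos t, (-Real.exp x) * Real.sin t) ∈ A := by
      intro x hx
      have : pt (t + Real.pi) x ∈ A := hx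
      rwa [pt_pi] at this
    have h1 : EqOn (sc f g (t + Real.pi)) (R ∘ (fun x => -Real.exp x)) (reg A (t + Real.pi)) := by
      intro x hx
      have h2 := (hpq (-Real.exp x) (neg_ne_zero.2 (Real.exp_pos x).ne') (hm x hx)).2
      simp only [sc, Function.comp_apply]
      rw [pt_pi]
      exact h2
    rw [eVariationOn.congr h1]
    exact eVariationOn.comp_le_of_antitoneOn R (fun x => -Real.exp x)
      (fun x _ y _ h => neg_le_neg (Real.exp_le_exp.2 h))
      (fun x hx => ⟨neg_neg_of_pos (Real.exp_pos x), hm x hx⟩)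
  refine (add_le_add e1 e2).trans ?_
  refine var_rat_roots hp hq (hA t) hJo ?_ ?_ ?_ ?_ ?_
  · rw [Set.disjoint_left]
    intro r hr hr'
    exact absurd hr.1 (not_lt.2 hr'.1.le)
  · intro r hr
    exact (hpq r hr.1.ne' hr.2).1
  · intro r hr
    exact (hpq r hr.1.ne hr.2).1
  · intro r hr
    rw [← (hpq r hr.1.ne' hr.2).2]
    exact hmM _ hr.2
  · intro r hr
    rw [← (hpq r hr.1.ne hr.2).2]
    exact hmM _ hr.2

lemma int_pair {v : ℝ → ℝ≥0∞} {B : ℝ≥0∞} (hv : ∀ t, v t + v (t + Real.pi) ≤ B) :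
    ∫⁻ t in Icc 0 (2 * Real.pi), v t ≤ ENNReal.ofReal Real.pi * B := by
  have hpi := Real.pi_pos
  have h1 : ∫⁻ t in Ico 0 (2 * Real.pi), v t =
      (∫⁻ t in Ico 0 Real.pi, v t) + ∫⁻ t in Ico Real.pi (2 * Real.pi), v t := by
    rw [← lintegral_union measurableSet_Ico, Ico_union_Ico_eq_Ico hpi.le (by linarith)]
    rw [Set.disjoint_left]
    intro x hx hx'
    exact absurd hx.2 (not_lt.2 hx'.1)
  have h2 : ∫⁻ t in Ico Real.pi (2 * Real.pi), v t = ∫⁻ t in Ico 0 Real.pi, v (t + Real.pi) := by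
    rw [← lintegral_indicator measurableSet_Ico, ← lintegral_indicator measurableSet_Ico,
      ← lintegral_add_right_eq_self _ Real.pi]
    congr 1
    ext t
    by_cases ht : t ∈ Ico 0 Real.pi
    · rw [indicator_of_mem ht, indicator_of_mem]
      exact ⟨by linarith [ht.1], by linarith [ht.2]⟩
    · rw [indicator_of_notMem ht, indicator_of_notMem]
      intro h
      exact ht ⟨by linarith [h.1], by linarith [h.2]⟩
  rw [← setLIntegral_congr (Ico_ae_eq_Icc (α := ℝ)), h1, h2]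
  calc _ ≤ ∫⁻ t in Ico 0 Real.pi, (v t + v (t + Real.pi)) := le_lintegral_add _ _
    _ ≤ ∫⁻ t in Ico 0 Real.pi, B := lintegral_mono fun t => hv t
    _ = _ := by
        rw [lintegral_const, Measure.restrict_apply MeasurableSet.univ, univ_inter,
          Real.volume_Ico, sub_zero, mul_comm]

/-- the polynomial of the radial part on a line -/
noncomputable def pP (f g : MvPolynomial (Fin 2) ℝ) (t : ℝ) : Polynomial ℝ :=
  Polynomial.C (Real.cos t) * rpoly f t + Polynomial.C (Real.sin t) * rpoly g t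

/-- the polynomial of the angular part on a line -/
noncomputable def qP (f g : MvPolynomial (Fin 2) ℝ) (t : ℝ) : Polynomial ℝ :=
  Polynomial.C (Real.cos t) * rpoly g t - Polynomial.C (Real.sin t) * rpoly f t

lemma pP_deg {n : ℕ} (hf : f.totalDegree ≤ n) (hg : g.totalDegree ≤ n) (t : ℝ) :
    (pP f g t).natDegree ≤ n := by
  refine (Polynomial.natDegree_add_le _ _).trans (max_le ?_ ?_)
  · exact (Polynomial.natDegree_C_mul_le _ _).trans (rpoly_deg f hf t)
  · exact (Polynomial.natDegree_C_mul_le _ _).trans (rpoly_deg g hg t)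

lemma qP_deg {n : ℕ} (hf : f.totalDegree ≤ n) (hg : g.totalDegree ≤ n) (t : ℝ) :
    (qP f g t).natDegree ≤ n := by
  refine (Polynomial.natDegree_sub_le _ _).trans (max_le ?_ ?_)
  · exact (Polynomial.natDegree_C_mul_le _ _).trans (rpoly_deg g hg t)
  · exact (Polynomial.natDegree_C_mul_le _ _).trans (rpoly_deg f hf t)

lemma pP_eval (t r : ℝ) : (pP f g t).eval r = Real.cos t * ev f (r * Real.cos t, r * Real.sin t) +
    Real.sin t * ev g (r * Real.cos t, r * Real.sin t) := by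
  simp only [pP, Polynomial.eval_add, Polynomial.eval_mul, Polynomial.eval_C, rpoly_eval, pol, ev]

lemma qP_eval (t r : ℝ) : (qP f g t).eval r = Real.cos t * ev g (r * Real.cos t, r * Real.sin t) -
    Real.sin t * ev f (r * Real.cos t, r * Real.sin t) := by
  simp only [qP, Polynomial.eval_sub, Polynomial.eval_mul, Polynomial.eval_C, rpoly_eval, pol, ev]

lemma rad_ray (t r : ℝ) : rad f g (r * Real.cos t, r * Real.sin t) = r * (pP f g t).eval r := by
  rw [pP_eval]; unfold rad; ring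

lemma ang_ray (t r : ℝ) : ang f g (r * Real.cos t, r * Real.sin t) = r * (qP f g t).eval r := by
  rw [qP_eval]; unfold ang; ring

lemma pair_one {n : ℕ} (hf : f.totalDegree ≤ n) (hg : g.totalDegree ≤ n)
    (hA : ∀ t, (ray A t).OrdConnected) (hpos : ∀ p ∈ A, 0 < ang f g p) {m M : ℝ}
    (hmM : ∀ p ∈ A, m ≤ rad f g p / ang f g p ∧ rad f g p / ang f g p ≤ M) (t : ℝ) :
    eVariationOn (sc f g t) (reg A t) + eVariationOn (sc f g (t + Real.pi)) (reg A (t + Real.pi)) ≤
      n * ENNReal.ofReal (M - m) := by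
  refine pair_gen hA (pP_deg hf hg t) (qP_deg hf hg t) (fun r hr hrA => ?_) hmM
  have h1 := hpos _ hrA
  rw [ang_ray] at h1
  refine ⟨fun h => ?_, ?_⟩
  · rw [h, mul_zero] at h1; exact lt_irrefl _ h1
  · rw [ang_ray, rad_ray, mul_div_mul_left _ _ hr]

lemma pair_two {n : ℕ} (hf : f.totalDegree ≤ n) (hg : g.totalDegree ≤ n)
    (hf0 : ev f 0 = 0) (hg0 : ev g 0 = 0)
    (hA : ∀ t, (ray A t).OrdConnected) (hpos : ∀ p ∈ A, 0 < ang f g p) {m M : ℝ}
    (hmM : ∀ p ∈ A, m ≤ rad f g p / ang f g p ∧ rad f g p / ang f g p ≤ M) (t : ℝ) :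
    eVariationOn (sc f g t) (reg A t) + eVariationOn (sc f g (t + Real.pi)) (reg A (t + Real.pi)) ≤
      (n - 1 : ℕ) * ENNReal.ofReal (M - m) := by
  have z0 : ((0 * Real.cos t, 0 * Real.sin t) : ℝ × ℝ) = 0 := by simp
  have hp0 : (pP f g t).coeff 0 = 0 := by
    rw [Polynomial.coeff_zero_eq_eval_zero, pP_eval, z0, hf0, hg0]; ring
  have hq0 : (qP f g t).coeff 0 = 0 := by
    rw [Polynomial.coeff_zero_eq_eval_zero, qP_eval, z0, hf0, hg0]; ring
  have hp1 := Polynomial.divX_mul_X_add (pP f g t)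
  have hq1 := Polynomial.divX_mul_X_add (qP f g t)
  rw [hp0, map_zero, add_zero] at hp1
  rw [hq0, map_zero, add_zero] at hq1
  have hp2 : ∀ r, (pP f g t).eval r = (pP f g t).divX.eval r * r := by
    intro r
    conv_lhs => rw [← hp1]
    rw [Polynomial.eval_mul, Polynomial.eval_X]
  have hq2 : ∀ r, (qP f g t).eval r = (qP f g t).divX.eval r * r := by
    intro r
    conv_lhs => rw [← hq1]
    rw [Polynomial.eval_mul, Polynomial.eval_X]
  refine pair_gen hA (p := (pP f g t).divX) (q := (qP f g t).divX) ?_ ?_ (fun r hr hrA => ?_) hmM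
  · rw [Polynomial.natDegree_divX_eq_natDegree_tsub_one]
    exact Nat.sub_le_sub_right (pP_deg hf hg t) 1
  · rw [Polynomial.natDegree_divX_eq_natDegree_tsub_one]
    exact Nat.sub_le_sub_right (qP_deg hf hg t) 1
  · have h1 := hpos _ hrA
    rw [ang_ray, hq2] at h1
    refine ⟨fun h => ?_, ?_⟩
    · rw [h] at h1; simp at h1
    · rw [ang_ray, rad_ray, mul_div_mul_left _ _ hr, hp2, hq2, mul_div_mul_right _ _ hr]

lemma arith_mean {B I V : ℝ≥0∞} (h1 : I ≤ ENNReal.ofReal (1 / (2 * Real.pi)) * V)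
    (h2 : V ≤ ENNReal.ofReal Real.pi * B) : 2 * I ≤ B := by
  have hpi := Real.pi_pos
  calc 2 * I ≤ 2 * (ENNReal.ofReal (1 / (2 * Real.pi)) * (ENNReal.ofReal Real.pi * B)) := by
        gcongr
        exact h1.trans (by gcongr)
    _ = (2 * ENNReal.ofReal (1 / (2 * Real.pi)) * ENNReal.ofReal Real.pi) * B := by ring
    _ = 1 * B := by
        congr 1
        rw [show (2:ℝ≥0∞) = ENNReal.ofReal 2 by simp, ← ENNReal.ofReal_mul (by norm_num),
          ← ENNReal.ofReal_mul (by positivity)]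
        rw [show 2 * (1 / (2 * Real.pi)) * Real.pi = 1 by field_simp]
        simp
    _ = _ := one_mul _

theorem ang_mean {n : ℕ} (hf : f.totalDegree ≤ n) (hg : g.totalDegree ≤ n)
    (hA : ∀ t, (ray A t).OrdConnected) (hpos : ∀ p ∈ A, 0 < ang f g p) {m M : ℝ}
    (hmM : ∀ p ∈ A, m ≤ rad f g p / ang f g p ∧ rad f g p / ang f g p ≤ M) :
    ∃ G : ℝ → ℝ≥0∞, Measurable G ∧
      (∀ s, ((closedOrbitsIn (field f g s) A).encard : ℝ≥0∞) ≤ G s) ∧
      2 * ∫⁻ s, G s ≤ n * ENNReal.ofReal (M - m) ∧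
      (ev f 0 = 0 → ev g 0 = 0 → 2 * ∫⁻ s, G s ≤ (n - 1 : ℕ) * ENNReal.ofReal (M - m)) := by
  have hpi := Real.two_pi_pos
  have hA' := reg_ord hA
  obtain ⟨G, hGm, hG, hGi⟩ := mainG hpi (sc_cont hpos _) (locLip (f := f) (g := g) hA' hpos _)
  refine ⟨G, hGm, fun s => le_trans ?_ (hG s), ?_, fun hf0 hg0 => ?_⟩
  · refine ENat.toENNReal_le.2 ?_
    have hsub : closedOrbitsIn (field f g s) A ⊆
        (fun h : Icc 0 (2 * Real.pi) → ℝ => range fun t : Icc 0 (2 * Real.pi) =>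
          ((Real.exp (h t) * Real.cos t, Real.exp (h t) * Real.sin t) : ℝ × ℝ)) ''
          closedIn (2 * Real.pi) (reg A) (sc f g) s := by
      intro C hC
      obtain ⟨ρ, hρ, hCρ⟩ := orbit_sc hA' hpos hC
      refine ⟨(Icc 0 (2 * Real.pi)).domRestrict ρ, ⟨ρ, hρ, rfl⟩, ?_⟩
      rw [hCρ]
      ext p
      constructor
      · rintro ⟨t, rfl⟩
        exact ⟨t, t.2, rfl⟩
      · rintro ⟨t, ht, rfl⟩
        exact ⟨⟨t, ht⟩, rfl⟩
    exact (encard_le_encard hsub).trans (encard_image_le _ _)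
  · exact arith_mean hGi (int_pair (pair_one hf hg hA hpos hmM))
  · exact arith_mean hGi (int_pair (pair_two hf hg hf0 hg0 hA hpos hmM))

/-- the punctured disc -/
def pdisc (R : ℝ) : Set (ℝ × ℝ) := {p | 0 < p.1 ^ 2 + p.2 ^ 2 ∧ p.1 ^ 2 + p.2 ^ 2 ≤ R ^ 2}

theorem ang_sharp {k : ℕ} (hk : 1 ≤ k) {R : ℝ} (hR : 0 < R) :
    ∃ f g : MvPolynomial (Fin 2) ℝ, f.totalDegree ≤ 2 * k + 1 ∧ g.totalDegree ≤ 2 * k + 1 ∧
      ev f 0 = 0 ∧ ev g 0 = 0 ∧
      (∀ p ∈ pdisc R, 0 < ang f g p ∧ -1 ≤ rad f g p / ang f g p ∧ rad f g p / ang f g p ≤ 1) ∧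
      ∀ s ∈ Ioo (-1:ℝ) 1, (k : ℕ∞) ≤ (closedOrbitsIn (field f g s) (pdisc R)).encard := by
  obtain ⟨H, hH, hb, hN⟩ := rigid_sharp hk hR
  have ef : ∀ p, ev (rigidX H 0) p = - p.2 + p.1 * ev H p := by
    intro p; unfold ev; rw [eval_rigidX, add_zero]
  have eg : ∀ p, ev (rigidY H 0) p = p.1 + p.2 * ev H p := by
    intro p; unfold ev; rw [eval_rigidY, add_zero]
  have ea : ∀ p, ang (rigidX H 0) (rigidY H 0) p = p.1 ^ 2 + p.2 ^ 2 := by
    intro p; unfold ang; rw [ef, eg]; ring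
  have er : ∀ p, rad (rigidX H 0) (rigidY H 0) p = (p.1 ^ 2 + p.2 ^ 2) * ev H p := by
    intro p; unfold rad; rw [ef, eg]; ring
  have hdeg : (H + MvPolynomial.C 0 : MvPolynomial (Fin 2) ℝ).totalDegree ≤ 2 * k := by
    simpa using hH
  refine ⟨rigidX H 0, rigidY H 0, ?_, ?_, ?_, ?_, ?_, ?_⟩
  · unfold rigidX
    refine (MvPolynomial.totalDegree_add _ _).trans (max_le ?_ ?_)
    · rw [MvPolynomial.totalDegree_neg, MvPolynomial.totalDegree_X]; omega
    · refine (MvPolynomial.totalDegree_mul _ _).trans ?_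
      rw [MvPolynomial.totalDegree_X]
      omega
  · unfold rigidY
    refine (MvPolynomial.totalDegree_add _ _).trans (max_le ?_ ?_)
    · rw [MvPolynomial.totalDegree_X]; omega
    · refine (MvPolynomial.totalDegree_mul _ _).trans ?_
      rw [MvPolynomial.totalDegree_X]
      omega
  · rw [ef]; simp
  · rw [eg]; simp
  · intro p hp
    rw [ea, er, mul_div_cancel_left₀ _ hp.1.ne']
    exact ⟨hp.1, hb p hp.2⟩
  · intro s hs
    refine (hN s hs).trans (encard_le_encard ?_)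
    intro C hC
    obtain ⟨ρ, hρ, hCρ⟩ := rigid_polar hR hC
    obtain ⟨⟨γ, T, hT, hγ, hper, hnc, hCγ⟩, hsub⟩ := hC
    refine ⟨⟨γ, T, hT, fun t => ?_, hper, hnc, hCγ⟩, ?_⟩
    · refine (hγ t).congr_deriv ?_
      rw [eval_rigidX, eval_rigidY]
      unfold field
      rw [ea, ef, eg]
      by_cases h0 : (γ t).1 ^ 2 + (γ t).2 ^ 2 = 0
      · have h1 : (γ t).1 = 0 := by nlinarith [sq_nonneg (γ t).1, sq_nonneg (γ t).2]
        have h2 : (γ t).2 = 0 := by nlinarith [sq_nonneg (γ t).1, sq_nonneg (γ t).2]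
        rw [h1, h2]
        simp
      · rw [div_self h0]
        simp only [ev]
        ext
        · simp only; ring
        · simp only; ring
    · intro p hp
      refine ⟨?_, hsub hp⟩
      rw [hCρ] at hp
      obtain ⟨t, -, rfl⟩ := hp
      unfold curve
      have h1 := Real.sin_sq_add_cos_sq t
      have h2 : (Real.exp (ρ t) * Real.cos t) ^ 2 + (Real.exp (ρ t) * Real.sin t) ^ 2 =
          Real.exp (ρ t) ^ 2 := by
        calc _ = Real.exp (ρ t) ^ 2 * (Real.sin t ^ 2 + Real.cos t ^ 2) := by ring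
          _ = _ := by rw [h1, mul_one]
      simp only
      rw [h2]
      positivity

end Pool.Agent.TH525.AG
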